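import Mathlib

/-!
Lines tangent to exactly four of `n` unit balls in space and missing all the others: there are
families of `n` unit balls with a finite number of such lines, at least `(n / 4) ^ 3`.

Outline. With a small parameter `p`, consider lines `x = p T + p ^ 2 S z`,
`y = p ^ 2 (e0 + e1 z)`, and unit balls with the following centres:
a lower chain `(0, -1 + p ^ 2 (-s ^ 2 + 1 / (16 n ^ 2)), s)` with `s = j / n`,
upper pairs `(2 p (16 i ± 2), 1 + p ^ 2 (-4 - (16 i ± 2) ^ 2), ± 2)` and a far row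
`(4 l, 0, 1 / (100 p ^ 2))`. In the limit `p → 0` the tangency conditions become explicit
polynomial conditions, and for all `i, j, l` there is a nondegenerate solution tangent to the
two upper balls number `i`, the lower ball number `j` and the far ball number `l`, which
strictly misses all the other balls. By the implicit function theorem these lines persist for
small `p > 0` and after a small perturbation of the centres. By the theorem of Sard, almost every
quadruple of unit balls has only finitely many common tangent lines, so for a generic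
perturbation of the centres the number of lines is finite.
-/

open Filter Topology MeasureTheory

namespace Pool.Agent.Results.MP_11b705_co.CubicTangents

/-- Euclidean space `ℝ³`. -/
abbrev E3 : Type := EuclideanSpace ℝ (Fin 3)

/-- The lines counted for the family of unit balls with centres in `B`: the lines `L` which are
tangent to the unit balls centred at the points of some four-element subset `F` of `B` (the centres
have distance exactly `1` from `L`) and which miss every other ball of the family (the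
centres have distance greater than `1` from `L`). -/
def tangentLines (B : Finset E3) : Set (AffineSubspace ℝ E3) :=
  {L | Module.finrank ℝ L.direction = 1 ∧ ∃ F : Finset E3, F ⊆ B ∧ F.card = 4 ∧
    (∀ c ∈ F, Metric.infDist c (L : Set E3) = 1) ∧
    ∀ c ∈ B, c ∉ F → 1 < Metric.infDist c (L : Set E3)}

/-- `T n` is the supremum of the number of lines tangent to exactly four balls and missing every
other ball, over the families of `n` unit balls for which this number is finite. -/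
noncomputable def T (n : ℕ) : ℕ∞ :=
  ⨆ (B : Finset E3) (_ : B.card = n ∧ (tangentLines B).Finite), (tangentLines B).encard

/-! ### The tangency functions and the implicit function theorem -/

theorem exists_sol {E P G : Type*} [NormedAddCommGroup E] [NormedSpace ℝ E] [CompleteSpace E]
    [NormedAddCommGroup P] [NormedSpace ℝ P] [CompleteSpace P]
    [NormedAddCommGroup G] [NormedSpace ℝ G] [CompleteSpace G]
    (F : E × P → G) (m0 : E) (p0 : P) (F' : E × P →L[ℝ] G)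
    (hF : HasStrictFDerivAt F F' (m0, p0))
    (hs : ∀ r, ∃ dm, F' (dm, 0) = r) {U : Set (E × P)} (hU : U ∈ 𝓝 (m0, p0)) :
    ∀ᶠ p in 𝓝 p0, ∃ m, (m, p) ∈ U ∧ F (m, p) = F (m0, p0) := by
  have h1 : HasStrictFDerivAt (fun x : E × P => (F x, x.2))
      (F'.prod (ContinuousLinearMap.snd ℝ E P)) (m0, p0) :=
    hF.prodMk hasStrictFDerivAt_snd
  have h2 : (F'.prod (ContinuousLinearMap.snd ℝ E P)).range = ⊤ := by
    rw [LinearMap.range_eq_top]
    rintro ⟨r, dp⟩
    obtain ⟨dm, hdm⟩ := hs (r - F' (0, dp))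
    refine ⟨(dm, dp), ?_⟩
    have : ((dm, dp) : E × P) = (dm, 0) + (0, dp) := by simp
    simp only [ContinuousLinearMap.coe_coe, ContinuousLinearMap.prod_apply, ContinuousLinearMap.coe_snd', Prod.mk.injEq, and_true]
    rw [this, map_add, hdm]
    abel
  have h3 := h1.map_nhds_eq_of_surj h2
  have h4 : (fun x : E × P => (F x, x.2)) '' U ∈ 𝓝 (F (m0, p0), p0) := by
    have := image_mem_map (m := fun x : E × P => (F x, x.2)) hU
    rw [h3] at this
    exact this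
  have h5 : Tendsto (fun p : P => (F (m0, p0), p)) (𝓝 p0) (𝓝 (F (m0, p0), p0)) := by
    apply Continuous.tendsto
    fun_prop
  filter_upwards [h5 h4] with p hp
  obtain ⟨⟨m, p'⟩, hm, hmp⟩ := hp
  simp only [Prod.mk.injEq] at hmp
  obtain ⟨h6, h7⟩ := hmp
  subst h7
  exact ⟨m, hm, h6⟩

/-- scaled tangency function of a ball with centre `(p q1, -1 + p^2 q2, q3)` -/
def Hlow (p : ℝ) (m : ℝ × ℝ × ℝ × ℝ) (q : ℝ × ℝ × ℝ) : ℝ :=
  (m.1 - q.1 + p * m.2.1 * q.2.2) ^ 2 + 2 * (m.2.2.1 + m.2.2.2 * q.2.2 - q.2.1)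
    + p ^ 2 * (m.2.2.1 + m.2.2.2 * q.2.2 - q.2.1) ^ 2
    + p ^ 2 * (p * (m.1 - q.1 + p * m.2.1 * q.2.2) * m.2.2.2
        - (1 + p ^ 2 * (m.2.2.1 + m.2.2.2 * q.2.2 - q.2.1)) * m.2.1) ^ 2
    - p ^ 2 * (m.2.1 ^ 2 + m.2.2.2 ^ 2)

def Hup (p : ℝ) (m : ℝ × ℝ × ℝ × ℝ) (q : ℝ × ℝ × ℝ) : ℝ :=
  (m.1 - q.1 + p * m.2.1 * q.2.2) ^ 2 - 2 * (m.2.2.1 + m.2.2.2 * q.2.2 - q.2.1)
    + p ^ 2 * (m.2.2.1 + m.2.2.2 * q.2.2 - q.2.1) ^ 2
    + p ^ 2 * (p * (m.1 - q.1 + p * m.2.1 * q.2.2) * m.2.2.2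
        - (-1 + p ^ 2 * (m.2.2.1 + m.2.2.2 * q.2.2 - q.2.1)) * m.2.1) ^ 2
    - p ^ 2 * (m.2.1 ^ 2 + m.2.2.2 ^ 2)

noncomputable def HE (p : ℝ) (m : ℝ × ℝ × ℝ × ℝ) (q : ℝ × ℝ × ℝ) : ℝ :=
  (p * m.1 + m.2.1 / 100 + p ^ 2 * m.2.1 * q.2.2 - q.1) ^ 2
    + (p ^ 2 * m.2.2.1 + m.2.2.2 / 100 + p ^ 2 * m.2.2.2 * q.2.2 - q.2.1) ^ 2 - 1
    + p ^ 4 * ((p * m.1 + m.2.1 / 100 + p ^ 2 * m.2.1 * q.2.2 - q.1) * m.2.2.2
      - (p ^ 2 * m.2.2.1 + m.2.2.2 / 100 + p ^ 2 * m.2.2.2 * q.2.2 - q.2.1) * m.2.1) ^ 2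
    - p ^ 4 * (m.2.1 ^ 2 + m.2.2.2 ^ 2)

/-- tangency function: line through `(x0,y0,0)` with direction `(s,t,1)`, centre `(a,b,z)` -/
def G (x0 s y0 t a b z : ℝ) : ℝ :=
  (x0 + s * z - a) ^ 2 + (y0 + t * z - b) ^ 2
    + ((x0 + s * z - a) * t - (y0 + t * z - b) * s) ^ 2 - 1 - s ^ 2 - t ^ 2

theorem G_low (p : ℝ) (m : ℝ × ℝ × ℝ × ℝ) (q : ℝ × ℝ × ℝ) :
    G (p * m.1) (p ^ 2 * m.2.1) (p ^ 2 * m.2.2.1) (p ^ 2 * m.2.2.2)
      (p * q.1) (-1 + p ^ 2 * q.2.1) q.2.2 = p ^ 2 * Hlow p m q := by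
  unfold G Hlow; ring

theorem G_up (p : ℝ) (m : ℝ × ℝ × ℝ × ℝ) (q : ℝ × ℝ × ℝ) :
    G (p * m.1) (p ^ 2 * m.2.1) (p ^ 2 * m.2.2.1) (p ^ 2 * m.2.2.2)
      (p * q.1) (1 + p ^ 2 * q.2.1) q.2.2 = p ^ 2 * Hup p m q := by
  unfold G Hup; ring

theorem G_E (p : ℝ) (hp : p ≠ 0) (m : ℝ × ℝ × ℝ × ℝ) (q : ℝ × ℝ × ℝ) :
    G (p * m.1) (p ^ 2 * m.2.1) (p ^ 2 * m.2.2.1) (p ^ 2 * m.2.2.2)
      q.1 q.2.1 (1 / (100 * p ^ 2) + q.2.2) = HE p m q := by
  unfold G HE
  field_simp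
  ring

theorem hasDerivAt_quad (A B C : ℝ) : HasDerivAt (fun t : ℝ => A + B * t + C * t ^ 2) B 0 := by
  have h1 : HasDerivAt (fun t : ℝ => A + B * t + C * t ^ 2)
      (0 + B * 1 + C * (((2 : ℕ) : ℝ) * (0 : ℝ) ^ (2 - 1) * 1)) 0 := by
    apply HasDerivAt.add
    · apply HasDerivAt.add
      · exact hasDerivAt_const _ _
      · exact (hasDerivAt_id (0 : ℝ)).const_mul B
    · exact ((hasDerivAt_id (0 : ℝ)).pow 2).const_mul C
  simpa using h1

/-- the four tangency functions of one quadruple -/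
noncomputable def F4 {ι : Type*} (a b c d : ι) (x : (ℝ × ℝ × ℝ × ℝ) × (ℝ × (ι → ℝ × ℝ × ℝ))) :
    ℝ × ℝ × ℝ × ℝ :=
  (Hup x.2.1 x.1 (x.2.2 a), Hup x.2.1 x.1 (x.2.2 b), Hlow x.2.1 x.1 (x.2.2 c),
    HE x.2.1 x.1 (x.2.2 d))

theorem contDiff_F4 {ι : Type*} [Fintype ι] (a b c d : ι) : ContDiff ℝ 1 (F4 a b c d) := by
  unfold F4 Hup Hlow HE
  fun_prop

theorem F4_deriv {ι : Type*} [Fintype ι] (a b c d : ι) (m dm : ℝ × ℝ × ℝ × ℝ)
    (q : ι → ℝ × ℝ × ℝ) :
    fderiv ℝ (F4 a b c d) (m, (0, q)) (dm, 0) =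
      (2 * (m.1 - (q a).1) * dm.1 - 2 * (dm.2.2.1 + dm.2.2.2 * (q a).2.2),
       2 * (m.1 - (q b).1) * dm.1 - 2 * (dm.2.2.1 + dm.2.2.2 * (q b).2.2),
       2 * (m.1 - (q c).1) * dm.1 + 2 * (dm.2.2.1 + dm.2.2.2 * (q c).2.2),
       2 * (m.2.1 / 100 - (q d).1) * (dm.2.1 / 100)
        + 2 * (m.2.2.2 / 100 - (q d).2.1) * (dm.2.2.2 / 100)) := by
  have h1 : HasFDerivAt (F4 a b c d) (fderiv ℝ (F4 a b c d) (m, (0, q))) (m, (0, q)) :=
    ((contDiff_F4 a b c d).differentiable (by norm_num)).differentiableAt.hasFDerivAt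
  have h2 : HasDerivAt (fun t : ℝ => (m + t • dm, ((0 : ℝ), q))) (dm, 0) 0 := by
    apply HasDerivAt.prodMk
    · have := ((hasDerivAt_id (0 : ℝ)).smul_const dm).const_add m
      simpa using this
    · exact hasDerivAt_const _ _
  have h3 : HasDerivAt (fun t : ℝ => F4 a b c d (m + t • dm, ((0 : ℝ), q)))
      (fderiv ℝ (F4 a b c d) (m, (0, q)) (dm, 0)) 0 := by
    have h4 : HasFDerivAt (F4 a b c d) (fderiv ℝ (F4 a b c d) (m, (0, q)))
        ((fun t : ℝ => (m + t • dm, ((0 : ℝ), q))) 0) := by simpa using h1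
    exact h4.comp_hasDerivAt 0 h2
  refine h3.unique ?_
  unfold F4
  apply HasDerivAt.prodMk
  · refine (hasDerivAt_quad (Hup 0 m (q a)) _ (dm.1 ^ 2)).congr_of_eventuallyEq ?_
    refine Filter.Eventually.of_forall fun t => ?_
    simp only [Hup, Prod.fst_add, Prod.snd_add, Prod.smul_fst, Prod.smul_snd, smul_eq_mul]
    ring
  apply HasDerivAt.prodMk
  · refine (hasDerivAt_quad (Hup 0 m (q b)) _ (dm.1 ^ 2)).congr_of_eventuallyEq ?_
    refine Filter.Eventually.of_forall fun t => ?_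
    simp only [Hup, Prod.fst_add, Prod.snd_add, Prod.smul_fst, Prod.smul_snd, smul_eq_mul]
    ring
  apply HasDerivAt.prodMk
  · refine (hasDerivAt_quad (Hlow 0 m (q c)) _ (dm.1 ^ 2)).congr_of_eventuallyEq ?_
    refine Filter.Eventually.of_forall fun t => ?_
    simp only [Hlow, Prod.fst_add, Prod.snd_add, Prod.smul_fst, Prod.smul_snd, smul_eq_mul]
    ring
  · refine (hasDerivAt_quad (HE 0 m (q d)) _ ((dm.2.1 / 100) ^ 2 + (dm.2.2.2 / 100) ^ 2)).congr_of_eventuallyEq ?_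
    refine Filter.Eventually.of_forall fun t => ?_
    simp only [HE, Prod.fst_add, Prod.snd_add, Prod.smul_fst, Prod.smul_snd, smul_eq_mul]
    ring

/-! ### The limit configuration -/

/-- the indices of the balls: lower chain, upper balls (two kinds), far row -/
abbrev Ix (n k : ℕ) := (Fin n ⊕ Fin n) ⊕ (Fin n ⊕ Fin k)

variable {n k : ℕ}

noncomputable def sg (n : ℕ) (j : Fin n) : ℝ := (j : ℝ) / n

noncomputable def q0 (n k : ℕ) : Ix n k → ℝ × ℝ × ℝ
  | .inl (.inl j) => (0, -(sg n j) ^ 2 + 1 / (16 * (n : ℝ) ^ 2), sg n j)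
  | .inl (.inr i) => (2 * (16 * (i : ℝ) + 2), -4 - (16 * (i : ℝ) + 2) ^ 2, 2)
  | .inr (.inl i) => (2 * (16 * (i : ℝ) - 2), -4 - (16 * (i : ℝ) - 2) ^ 2, -2)
  | .inr (.inr l) => (4 * (l : ℝ), 0, 0)

/-- scaled tangency function of ball `i` with scaled centre `q` -/
noncomputable def H (i : Ix n k) (p : ℝ) (m : ℝ × ℝ × ℝ × ℝ) (q : ℝ × ℝ × ℝ) : ℝ :=
  match i with
  | .inl (.inl _) => Hlow p m q
  | .inl (.inr _) => Hup p m q
  | .inr (.inl _) => Hup p m q
  | .inr (.inr _) => HE p m q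

noncomputable def zt (n : ℕ) (j : Fin n) : ℝ := sg n j + 1 / (4 * (n : ℝ))

noncomputable def rr (n : ℕ) (j : Fin n) : ℝ := Real.sqrt (1 - (zt n j / 50) ^ 2)

noncomputable def m0 (i j : Fin n) (l : Fin k) : ℝ × ℝ × ℝ × ℝ :=
  (16 * (i : ℝ) + zt n j, 100 * (4 * (l : ℝ) + rr n j),
    (zt n j) ^ 2 - (16 * (i : ℝ) + zt n j) ^ 2 / 2, -2 * zt n j)

theorem sg_nonneg (j : Fin n) : 0 ≤ sg n j := by unfold sg; positivity

theorem sg_lt (j : Fin n) : sg n j + 1 / n ≤ 1 := by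
  have hn : (0 : ℝ) < n := by exact_mod_cast j.pos
  have : ((j : ℕ) : ℝ) + 1 ≤ n := by exact_mod_cast j.2
  unfold sg
  rw [← add_div, div_le_one hn]
  exact this

theorem zt_pos (j : Fin n) : 0 < zt n j := by
  have hn : (0 : ℝ) < n := by exact_mod_cast j.pos
  have := sg_nonneg j
  unfold zt; positivity

theorem zt_le (j : Fin n) : zt n j ≤ 1 := by
  have hn : (0 : ℝ) < n := by exact_mod_cast j.pos
  have h1 := sg_lt j
  have h2 : 1 / (4 * (n : ℝ)) ≤ 1 / n := by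
    apply one_div_le_one_div_of_le hn; linarith
  unfold zt; linarith

theorem rr_sq (j : Fin n) : rr n j ^ 2 = 1 - (zt n j / 50) ^ 2 := by
  unfold rr
  apply Real.sq_sqrt
  have h1 := zt_pos j
  have h2 := zt_le j
  nlinarith

theorem rr_pos (j : Fin n) : 0 < rr n j := by
  unfold rr
  apply Real.sqrt_pos.2
  have h1 := zt_pos j
  have h2 := zt_le j
  nlinarith

theorem rr_le (j : Fin n) : rr n j ≤ 1 := by
  have h1 := rr_sq j
  have h2 := rr_pos j
  nlinarith [sq_nonneg (zt n j / 50)]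

theorem H_low0 (i j : Fin n) (l : Fin k) (j' : Fin n) :
    H (n := n) (k := k) (.inl (.inl j')) 0 (m0 i j l) (q0 n k (.inl (.inl j')))
      = 2 * ((zt n j - sg n j') ^ 2 - 1 / (16 * (n : ℝ) ^ 2)) := by
  simp only [H, Hlow, q0, m0]; ring

theorem H_up0 (i j : Fin n) (l : Fin k) (i' : Fin n) :
    H (n := n) (k := k) (.inl (.inr i')) 0 (m0 i j l) (q0 n k (.inl (.inr i')))
      = 2 * ((16 * (i : ℝ) + zt n j - 16 * (i' : ℝ) - 2) ^ 2 - (zt n j - 2) ^ 2) := by
  simp only [H, Hup, q0, m0]; ring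

theorem H_um0 (i j : Fin n) (l : Fin k) (i' : Fin n) :
    H (n := n) (k := k) (.inr (.inl i')) 0 (m0 i j l) (q0 n k (.inr (.inl i')))
      = 2 * ((16 * (i : ℝ) + zt n j - 16 * (i' : ℝ) + 2) ^ 2 - (zt n j + 2) ^ 2) := by
  simp only [H, Hup, q0, m0]; ring

theorem H_E0 (i j : Fin n) (l : Fin k) (l' : Fin k) :
    H (n := n) (k := k) (.inr (.inr l')) 0 (m0 i j l) (q0 n k (.inr (.inr l')))
      = (4 * ((l : ℝ) - (l' : ℝ)) + rr n j) ^ 2 - rr n j ^ 2 := by
  rw [rr_sq]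
  simp only [H, HE, q0, m0]; ring

/-- the four indices -/
def quad (i j : Fin n) (l : Fin k) : Finset (Ix n k) :=
  {.inl (.inr i), .inr (.inl i), .inl (.inl j), .inr (.inr l)}

theorem abs_sub_ge (a b : ℕ) (h : a ≠ b) : 1 ≤ |(a : ℝ) - b| := by
  have : (1 : ℤ) ≤ |(a : ℤ) - b| := Int.one_le_abs (by omega)
  exact_mod_cast this

theorem H_zero (i j : Fin n) (l : Fin k) (x : Ix n k) (hx : x ∈ quad i j l) :
    H x 0 (m0 i j l) (q0 n k x) = 0 := by
  have hn : (0 : ℝ) < n := by exact_mod_cast j.pos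
  simp only [quad, Finset.mem_insert, Finset.mem_singleton] at hx
  rcases hx with rfl | rfl | rfl | rfl
  · rw [H_up0]; ring
  · rw [H_um0]; ring
  · rw [H_low0]; unfold zt; field_simp; ring
  · rw [H_E0]; ring

theorem H_pos (i j : Fin n) (l : Fin k) (x : Ix n k) (hx : x ∉ quad i j l) :
    0 < H x 0 (m0 i j l) (q0 n k x) := by
  have hn : (0 : ℝ) < n := by exact_mod_cast j.pos
  have hz := zt_pos j
  have hz1 := zt_le j
  simp only [quad, Finset.mem_insert, Finset.mem_singleton, not_or] at hx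
  obtain ⟨h1, h2, h3, h4⟩ := hx
  rcases x with (j' | i') | (i' | l')
  · rw [H_low0]
    have hne : (j : ℕ) ≠ (j' : ℕ) := by
      intro h; apply h3; rw [Fin.ext h]
    have h5 := abs_sub_ge _ _ hne
    have h6 : zt n j - sg n j' = ((j : ℝ) - (j' : ℝ) + 1 / 4) / n := by
      unfold zt sg; field_simp; ring
    rw [h6, div_pow]
    have h7 : (1 / 16 : ℝ) < ((j : ℝ) - (j' : ℝ) + 1 / 4) ^ 2 := by
      rcases le_abs.1 h5 with h | h <;> nlinarith
    have h8 : (1 : ℝ) / (16 * (n : ℝ) ^ 2) = (1 / 16) / (n : ℝ) ^ 2 := by field_simp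
    rw [h8, ← sub_div]
    have : 0 < (((j : ℝ) - (j' : ℝ) + 1 / 4) ^ 2 - 1 / 16) / (n : ℝ) ^ 2 := by
      apply div_pos; linarith; positivity
    linarith
  · rw [H_up0]
    have hne : (i : ℕ) ≠ (i' : ℕ) := by
      intro h; apply h1; rw [Fin.ext h]
    have h5 := abs_sub_ge _ _ hne
    rcases le_abs.1 h5 with h | h <;> nlinarith
  · rw [H_um0]
    have hne : (i : ℕ) ≠ (i' : ℕ) := by
      intro h; apply h2; rw [Fin.ext h]
    have h5 := abs_sub_ge _ _ hne
    rcases le_abs.1 h5 with h | h <;> nlinarith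
  · rw [H_E0]
    have hne : (l : ℕ) ≠ (l' : ℕ) := by
      intro h; apply h4; rw [Fin.ext h]
    have h5 := abs_sub_ge _ _ hne
    have h6 := rr_pos j
    have h7 := rr_le j
    rcases le_abs.1 h5 with h | h <;> nlinarith

theorem surj (i j : Fin n) (l : Fin k) (r : ℝ × ℝ × ℝ × ℝ) :
    ∃ dm : ℝ × ℝ × ℝ × ℝ,
      fderiv ℝ (F4 (.inl (.inr i)) (.inr (.inl i)) (.inl (.inl j)) (.inr (.inr l)))
        (m0 i j l, ((0 : ℝ), q0 n k)) (dm, 0) = r := by
  have hn : (0 : ℝ) < n := by exact_mod_cast j.pos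
  have hr := rr_pos j
  obtain ⟨r1, r2, r3, r4⟩ := r
  obtain ⟨a, ha⟩ : ∃ a : ℝ, a = n * (r3 + (r1 + r2) / 2 + sg n j * (r1 - r2) / 4) := ⟨_, rfl⟩
  obtain ⟨c, hc⟩ : ∃ c : ℝ, c = (zt n j - 16 * (i : ℝ)) * a - (r1 + r2) / 4 := ⟨_, rfl⟩
  obtain ⟨d, hd⟩ : ∃ d : ℝ, d = -2 * a - (r1 - r2) / 8 := ⟨_, rfl⟩
  obtain ⟨b, hb⟩ : ∃ b : ℝ, b = 100 * ((r4 + 4 * zt n j * d / 10000) / (2 * rr n j)) := ⟨_, rfl⟩
  refine ⟨(a, b, c, d), ?_⟩
  rw [F4_deriv]
  simp only [m0, q0, Prod.mk.injEq]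
  refine ⟨?_, ?_, ?_, ?_⟩
  · rw [hc, hd]; ring
  · rw [hc, hd]; ring
  · have h1 : a / n = r3 + (r1 + r2) / 2 + sg n j * (r1 - r2) / 4 := by
      rw [ha]; field_simp
    have h2 : zt n j = sg n j + 1 / (4 * n) := rfl
    rw [hc, hd]
    have h3 : a * (4 * (zt n j - sg n j)) = a / n := by
      rw [h2]; field_simp; ring
    linarith
  · rw [hb]; field_simp; ring

theorem exists_lines (i j : Fin n) (l : Fin k) :
    ∀ᶠ p in 𝓝 ((0 : ℝ), q0 n k), ∃ m : ℝ × ℝ × ℝ × ℝ,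
      (∀ x ∈ quad i j l, H x p.1 m (p.2 x) = 0) ∧ (∀ x ∉ quad i j l, 0 < H x p.1 m (p.2 x)) := by
  have h1 := ((contDiff_F4 (ι := Ix n k) (.inl (.inr i)) (.inr (.inl i)) (.inl (.inl j))
    (.inr (.inr l))).contDiffAt (x := (m0 i j l, ((0 : ℝ), q0 n k)))).hasStrictFDerivAt
      (by norm_num)
  have hcont : ∀ x : Ix n k, Continuous (fun y : (ℝ × ℝ × ℝ × ℝ) × (ℝ × (Ix n k → ℝ × ℝ × ℝ)) =>
      H x y.2.1 y.1 (y.2.2 x)) := by
    intro x
    rcases x with (j' | i') | (i' | l')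
    · simp only [H, Hlow]; fun_prop
    · simp only [H, Hup]; fun_prop
    · simp only [H, Hup]; fun_prop
    · simp only [H, HE]; fun_prop
  have hU : {y : (ℝ × ℝ × ℝ × ℝ) × (ℝ × (Ix n k → ℝ × ℝ × ℝ)) |
      ∀ x : Ix n k, x ∉ quad i j l → 0 < H x y.2.1 y.1 (y.2.2 x)} ∈
      𝓝 (m0 i j l, ((0 : ℝ), q0 n k)) := by
    rw [← Filter.Eventually, Filter.eventually_all]
    · intro x
      by_cases hx : x ∈ quad i j l
      · simp [hx]
      · simp only [hx, not_false_eq_true, forall_const]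
        have := (hcont x).continuousAt (x := (m0 i j l, ((0 : ℝ), q0 n k)))
        exact this.eventually_const_lt (H_pos i j l x hx)
  have h2 := exists_sol _ (m0 i j l) ((0 : ℝ), q0 n k) _ h1 (surj i j l) hU
  filter_upwards [h2] with p hp
  obtain ⟨m, hm, hF⟩ := hp
  refine ⟨m, ?_, hm⟩
  have h0 : F4 (.inl (.inr i)) (.inr (.inl i)) (.inl (.inl j)) (.inr (.inr l))
      (m0 i j l, ((0 : ℝ), q0 n k)) = (0, 0, 0, 0) := by
    simp only [F4, Prod.mk.injEq]
    refine ⟨?_, ?_, ?_, ?_⟩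
    · exact H_zero i j l (.inl (.inr i)) (by simp [quad])
    · exact H_zero i j l (.inr (.inl i)) (by simp [quad])
    · exact H_zero i j l (.inl (.inl j)) (by simp [quad])
    · exact H_zero i j l (.inr (.inr l)) (by simp [quad])
  rw [h0] at hF
  simp only [F4, Prod.mk.injEq] at hF
  intro x hx
  simp only [quad, Finset.mem_insert, Finset.mem_singleton] at hx
  rcases hx with rfl | rfl | rfl | rfl
  · exact hF.1
  · exact hF.2.1
  · exact hF.2.2.1
  · exact hF.2.2.2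

theorem exists_all_lines (n k : ℕ) :
    ∀ᶠ p in 𝓝 ((0 : ℝ), q0 n k), ∀ (i j : Fin n) (l : Fin k), ∃ m : ℝ × ℝ × ℝ × ℝ,
      (∀ x ∈ quad i j l, H x p.1 m (p.2 x) = 0) ∧
      (∀ x ∉ quad i j l, 0 < H x p.1 m (p.2 x)) := by
  rw [Filter.eventually_all]
  intro i
  rw [Filter.eventually_all]
  intro j
  rw [Filter.eventually_all]
  intro l
  exact exists_lines i j l

/-! ### Finiteness for generic centres -/

abbrev C4 := Fin 4 → Fin 3 → ℝ

noncomputable def Phi (x : C4) : C4 := fun i =>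
  ![(x 2 0 + Real.cos (x i 2)) * (-Real.sin (x 0 0))
      + (x 3 0 + Real.sin (x i 2)) * (-(Real.cos (x 0 0) * Real.sin (x 1 0)))
      + x i 1 * (Real.cos (x 0 0) * Real.cos (x 1 0)),
    (x 2 0 + Real.cos (x i 2)) * Real.cos (x 0 0)
      + (x 3 0 + Real.sin (x i 2)) * (-(Real.sin (x 0 0) * Real.sin (x 1 0)))
      + x i 1 * (Real.sin (x 0 0) * Real.cos (x 1 0)),
    (x 3 0 + Real.sin (x i 2)) * Real.cos (x 1 0) + x i 1 * Real.sin (x 1 0)]

theorem contDiff_Phi : ContDiff ℝ 1 Phi := by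
  refine contDiff_pi.2 fun i => contDiff_pi.2 fun j => ?_
  fin_cases j
  · simp only [Phi, Fin.zero_eta, Fin.isValue, Matrix.cons_val_zero]
    fun_prop
  · simp only [Phi, Fin.mk_one, Fin.isValue, Matrix.cons_val_one, Matrix.cons_val_zero]
    fun_prop
  · simp only [Phi, Fin.reduceFinMk, Matrix.cons_val]
    fun_prop

/-- the critical values of `Phi` -/
noncomputable def Bad : Set C4 := Phi '' {x | (fderiv ℝ Phi x).det = 0}

theorem volume_Bad : volume Bad = 0 := by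
  apply addHaar_image_eq_zero_of_det_fderivWithin_eq_zero (f' := fun x => fderiv ℝ Phi x)
  · intro x _
    exact (contDiff_Phi.differentiable (by norm_num)).differentiableAt.hasFDerivAt.hasFDerivWithinAt
  · intro x hx
    exact hx

theorem finite_preimage (c : C4) (hc : c ∉ Bad) (R : ℝ) :
    {x : C4 | Phi x = c ∧ ‖x‖ ≤ R}.Finite := by
  by_contra hinf
  have hK : IsCompact (Metric.closedBall (0 : C4) R) := isCompact_closedBall _ _
  have hsub : {x : C4 | Phi x = c ∧ ‖x‖ ≤ R} ⊆ Metric.closedBall (0 : C4) R := by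
    intro x hx
    simpa using hx.2
  obtain ⟨x, hxK, hx⟩ := Set.Infinite.exists_accPt_of_subset_isCompact hinf hK hsub
  have hclosed : IsClosed {x : C4 | Phi x = c ∧ ‖x‖ ≤ R} := by
    apply IsClosed.inter
    · exact isClosed_eq contDiff_Phi.continuous continuous_const
    · exact isClosed_le continuous_norm continuous_const
  have hxm : x ∈ {x : C4 | Phi x = c ∧ ‖x‖ ≤ R} := by
    apply hclosed.closure_subset
    exact mem_closure_iff_clusterPt.2 hx.clusterPt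
  have hdet : (fderiv ℝ Phi x).det ≠ 0 := by
    intro h
    exact hc ⟨x, h, hxm.1⟩
  have hder : HasFDerivAt Phi (fderiv ℝ Phi x) x :=
    (contDiff_Phi.differentiable (by norm_num)).differentiableAt.hasFDerivAt
  have hb : ∃ C : NNReal, AntilipschitzWith C (fderiv ℝ Phi x) := by
    let e := (fderiv ℝ Phi x).toContinuousLinearEquivOfDetNeZero hdet
    refine ⟨‖(e.symm : C4 →L[ℝ] C4)‖₊, ?_⟩
    have h1 : (⇑(fderiv ℝ Phi x) : C4 → C4) = ⇑e := by
      funext z; simp [e]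
    rw [h1]
    exact e.antilipschitz
  have hne := hder.eventually_ne (c := c) hb
  rw [accPt_iff_frequently_nhdsNE] at hx
  apply hx
  filter_upwards [hne] with y hy hy2
  exact hy hy2.1

noncomputable def mkLine (p v : E3) : AffineSubspace ℝ E3 :=
  AffineSubspace.mk' p (Submodule.span ℝ {v})

theorem mem_mkLine (p v y : E3) : y ∈ mkLine p v ↔ ∃ t : ℝ, y = p + t • v := by
  unfold mkLine
  rw [AffineSubspace.mem_mk', Submodule.mem_span_singleton]
  constructor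
  · rintro ⟨t, ht⟩
    refine ⟨t, ?_⟩
    rw [ht, vsub_eq_sub]; abel
  · rintro ⟨t, rfl⟩
    exact ⟨t, by rw [vsub_eq_sub]; abel⟩

theorem infDist_line (p v c : E3) (hv : v ≠ 0) :
    Metric.infDist c (mkLine p v : Set E3) ^ 2 * ‖v‖ ^ 2
      = ‖c - p‖ ^ 2 * ‖v‖ ^ 2 - (inner ℝ (c - p) v) ^ 2 := by
  have hv' : 0 < ‖v‖ ^ 2 := by positivity
  have hdist : ∀ t : ℝ, dist c (p + t • v) ^ 2 * ‖v‖ ^ 2
      = ‖c - p‖ ^ 2 * ‖v‖ ^ 2 - (inner ℝ (c - p) v) ^ 2
        + (t * ‖v‖ ^ 2 - inner ℝ (c - p) v) ^ 2 := by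
    intro t
    have h1 : c - (p + t • v) = (c - p) - t • v := by abel
    rw [dist_eq_norm, h1, norm_sub_sq_real, inner_smul_right, norm_smul, mul_pow,
      Real.norm_eq_abs, sq_abs]
    ring
  obtain ⟨t0, ht0⟩ : ∃ t0 : ℝ, t0 = inner ℝ (c - p) v / ‖v‖ ^ 2 := ⟨_, rfl⟩
  have hmem : p + t0 • v ∈ (mkLine p v : Set E3) := (mem_mkLine _ _ _).2 ⟨t0, rfl⟩
  have h0 : dist c (p + t0 • v) ^ 2 * ‖v‖ ^ 2
      = ‖c - p‖ ^ 2 * ‖v‖ ^ 2 - (inner ℝ (c - p) v) ^ 2 := by
    rw [hdist t0]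
    have : t0 * ‖v‖ ^ 2 = inner ℝ (c - p) v := by rw [ht0]; field_simp
    rw [this]; ring
  have heq : Metric.infDist c (mkLine p v : Set E3) = dist c (p + t0 • v) := by
    apply le_antisymm
    · exact Metric.infDist_le_dist_of_mem hmem
    · rw [Metric.le_infDist ⟨_, hmem⟩]
      intro y hy
      obtain ⟨t, rfl⟩ := (mem_mkLine _ _ _).1 hy
      have h2 := hdist t
      have h3 : dist c (p + t0 • v) ^ 2 ≤ dist c (p + t • v) ^ 2 := by
        have : dist c (p + t0 • v) ^ 2 * ‖v‖ ^ 2 ≤ dist c (p + t • v) ^ 2 * ‖v‖ ^ 2 := by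
          rw [h0, h2]; nlinarith [sq_nonneg (t * ‖v‖ ^ 2 - inner ℝ (c - p) v)]
        exact le_of_mul_le_mul_right this hv'
      exact (pow_le_pow_iff_left₀ dist_nonneg dist_nonneg (by norm_num)).1 h3
  rw [heq, h0]

theorem exists_line (L : AffineSubspace ℝ E3) (hL : Module.finrank ℝ L.direction = 1) :
    ∃ p v : E3, p ∈ L ∧ v ≠ 0 ∧ L.direction = Submodule.span ℝ {v} := by
  have hne : (L : Set E3).Nonempty := by
    rw [AffineSubspace.nonempty_iff_ne_bot]
    intro hbot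
    rw [hbot, AffineSubspace.direction_bot, finrank_bot] at hL
    omega
  obtain ⟨p, hp⟩ := hne
  rw [finrank_eq_one_iff'] at hL
  obtain ⟨v, hv0, hv⟩ := hL
  refine ⟨p, v, hp, by simpa using hv0, ?_⟩
  apply le_antisymm
  · intro w hw
    obtain ⟨c, hc⟩ := hv ⟨w, hw⟩
    rw [Submodule.mem_span_singleton]
    exact ⟨c, by simpa using congrArg Subtype.val hc⟩
  · rw [Submodule.span_singleton_le_iff_mem]
    exact v.2

theorem exists_angle (a b : ℝ) : ∃ r t : ℝ, 0 ≤ r ∧ |t| ≤ Real.pi ∧ a = r * Real.cos t ∧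
    b = r * Real.sin t ∧ r ^ 2 = a ^ 2 + b ^ 2 := by
  refine ⟨‖(⟨a, b⟩ : ℂ)‖, Complex.arg ⟨a, b⟩, norm_nonneg _, Complex.abs_arg_le_pi _, ?_, ?_, ?_⟩
  · rw [Complex.norm_mul_cos_arg]
  · rw [Complex.norm_mul_sin_arg]
  · rw [← Complex.normSq_eq_norm_sq, Complex.normSq_mk]; ring

theorem frame0 (ca sa cb sb w0 w1 w2 : ℝ) (h1 : ca ^ 2 + sa ^ 2 = 1) (h2 : cb ^ 2 + sb ^ 2 = 1) :
    (-sa * w0 + ca * w1) * (-sa) + (-(ca * sb) * w0 - sa * sb * w1 + cb * w2) * (-(ca * sb))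
      + (ca * cb * w0 + sa * cb * w1 + sb * w2) * (ca * cb) = w0 := by
  linear_combination w0 * h1 + (w0 * ca ^ 2 + w1 * ca * sa) * h2

theorem frame1 (ca sa cb sb w0 w1 w2 : ℝ) (h1 : ca ^ 2 + sa ^ 2 = 1) (h2 : cb ^ 2 + sb ^ 2 = 1) :
    (-sa * w0 + ca * w1) * ca + (-(ca * sb) * w0 - sa * sb * w1 + cb * w2) * (-(sa * sb))
      + (ca * cb * w0 + sa * cb * w1 + sb * w2) * (sa * cb) = w1 := by
  linear_combination w1 * h1 + (w1 * sa ^ 2 + w0 * ca * sa) * h2

theorem frame2 (ca sa cb sb w0 w1 w2 : ℝ) (h2 : cb ^ 2 + sb ^ 2 = 1) :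
    (-(ca * sb) * w0 - sa * sb * w1 + cb * w2) * cb
      + (ca * cb * w0 + sa * cb * w1 + sb * w2) * sb = w2 := by
  linear_combination w2 * h2

theorem nrm (ca sa cb sb A1 A2 A3 : ℝ) (h1 : ca ^ 2 + sa ^ 2 = 1) (h2 : cb ^ 2 + sb ^ 2 = 1) :
    (A1 * (-sa) + A2 * (-(ca * sb)) + A3 * (ca * cb)) ^ 2
      + (A1 * ca + A2 * (-(sa * sb)) + A3 * (sa * cb)) ^ 2
      + (A2 * cb + A3 * sb) ^ 2 = A1 ^ 2 + A2 ^ 2 + A3 ^ 2 := by
  linear_combination (A1 ^ 2 + A2 ^ 2 * sb ^ 2 + A3 ^ 2 * cb ^ 2 - 2 * A2 * A3 * sb * cb) * h1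
    + (A2 ^ 2 + A3 ^ 2) * h2

theorem inn (ca sa cb sb A1 A2 A3 : ℝ) (h1 : ca ^ 2 + sa ^ 2 = 1) (h2 : cb ^ 2 + sb ^ 2 = 1) :
    (A1 * (-sa) + A2 * (-(ca * sb)) + A3 * (ca * cb)) * (ca * cb)
      + (A1 * ca + A2 * (-(sa * sb)) + A3 * (sa * cb)) * (sa * cb)
      + (A2 * cb + A3 * sb) * sb = A3 := by
  linear_combination (-A2 * sb * cb + A3 * cb ^ 2) * h1 + A3 * h2

/-- the direction vector -/
noncomputable def Vd (a b : ℝ) : E3 :=
  !₂[Real.cos a * Real.cos b, Real.sin a * Real.cos b, Real.sin b]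

/-- the foot point -/
noncomputable def Pd (a b p1 p2 : ℝ) : E3 :=
  !₂[p1 * (-Real.sin a) + p2 * (-(Real.cos a * Real.sin b)),
    p1 * Real.cos a + p2 * (-(Real.sin a * Real.sin b)), p2 * Real.cos b]

theorem line_param (L : AffineSubspace ℝ E3) (hL : Module.finrank ℝ L.direction = 1) :
    ∃ a b p1 p2 : ℝ, |a| ≤ Real.pi ∧ |b| ≤ Real.pi ∧ L = mkLine (Pd a b p1 p2) (Vd a b) := by
  obtain ⟨p, v, hp, hv0, hv⟩ := exists_line L hL
  obtain ⟨r, a, hr, ha, hva, hvb, hrr⟩ := exists_angle (v 0) (v 1)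
  obtain ⟨R, b, hR, hb, hva2, hvb2, hRR⟩ := exists_angle r (v 2)
  have hRpos : 0 < R := by
    rcases hR.lt_or_eq with h | h
    · exact h
    · exfalso
      apply hv0
      subst h
      have h0 : r = 0 := by simpa using hva2
      ext i
      fin_cases i
      · simpa [h0] using hva
      · simpa [h0] using hvb
      · simpa using hvb2
  have hvV : v = R • Vd a b := by
    ext i
    fin_cases i
    · simp [Vd, hva, hva2]; ring
    · simp [Vd, hvb, hva2]; ring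
    · simp [Vd, hvb2]
  refine ⟨a, b, -Real.sin a * p 0 + Real.cos a * p 1,
    -(Real.cos a * Real.sin b) * p 0 - Real.sin a * Real.sin b * p 1 + Real.cos b * p 2,
    ha, hb, ?_⟩
  have h1 : Real.cos a ^ 2 + Real.sin a ^ 2 = 1 := Real.cos_sq_add_sin_sq a
  have h2 : Real.cos b ^ 2 + Real.sin b ^ 2 = 1 := Real.cos_sq_add_sin_sq b
  obtain ⟨t, ht⟩ : ∃ t : ℝ, t = Real.cos a * Real.cos b * p 0 + Real.sin a * Real.cos b * p 1
    + Real.sin b * p 2 := ⟨_, rfl⟩
  have hP : Pd a b (-Real.sin a * p 0 + Real.cos a * p 1)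
      (-(Real.cos a * Real.sin b) * p 0 - Real.sin a * Real.sin b * p 1 + Real.cos b * p 2)
      = p + (-t) • Vd a b := by
    ext i
    fin_cases i
    · have := frame0 _ _ _ _ (p 0) (p 1) (p 2) h1 h2
      simp [Pd, Vd, ht]; linarith
    · have := frame1 _ _ _ _ (p 0) (p 1) (p 2) h1 h2
      simp [Pd, Vd, ht]; linarith
    · have := frame2 (Real.cos a) (Real.sin a) _ _ (p 0) (p 1) (p 2) h2
      simp [Pd, Vd, ht]; linarith
  have hV : Submodule.span ℝ {Vd a b} = L.direction := by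
    rw [hv, hvV]
    rw [Submodule.span_singleton_smul_eq]
    exact (isUnit_iff_ne_zero.2 hRpos.ne')
  unfold mkLine
  rw [hV, hP]
  have hmem : p + (-t) • Vd a b ∈ L := by
    have h3 : (-t) • Vd a b ∈ L.direction := by
      rw [← hV]
      exact Submodule.smul_mem _ _ (Submodule.mem_span_singleton_self _)
    have h4 := AffineSubspace.vadd_mem_of_mem_direction h3 hp
    rw [vadd_eq_add, add_comm] at h4
    exact h4
  exact (AffineSubspace.mk'_eq hmem).symm

theorem exists_phi (a b p1 p2 : ℝ) (c : E3)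
    (hc : Metric.infDist c (mkLine (Pd a b p1 p2) (Vd a b) : Set E3) = 1) :
    ∃ f t : ℝ, |f| ≤ Real.pi ∧ |t| ≤ ‖c‖ ∧ |p1| ≤ ‖c‖ + 1 ∧ |p2| ≤ ‖c‖ + 1 ∧
      c 0 = (p1 + Real.cos f) * (-Real.sin a)
        + (p2 + Real.sin f) * (-(Real.cos a * Real.sin b))
        + t * (Real.cos a * Real.cos b) ∧
      c 1 = (p1 + Real.cos f) * Real.cos a
        + (p2 + Real.sin f) * (-(Real.sin a * Real.sin b))
        + t * (Real.sin a * Real.cos b) ∧
      c 2 = (p2 + Real.sin f) * Real.cos b + t * Real.sin b := by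
  have h1 : Real.cos a ^ 2 + Real.sin a ^ 2 = 1 := Real.cos_sq_add_sin_sq a
  have h2 : Real.cos b ^ 2 + Real.sin b ^ 2 = 1 := Real.cos_sq_add_sin_sq b
  have hVn : ‖Vd a b‖ ^ 2 = 1 := by
    rw [EuclideanSpace.norm_sq_eq]
    simp [Fin.sum_univ_three, Vd]
    linear_combination (Real.cos b ^ 2) * h1 + h2
  have hV0 : Vd a b ≠ 0 := by
    intro h; rw [h] at hVn; simp at hVn
  have h3 := infDist_line (Pd a b p1 p2) (Vd a b) c hV0
  rw [hc, hVn] at h3
  have h4 : ‖c - Pd a b p1 p2‖ ^ 2 = (c 0 - (p1 * (-Real.sin a) + p2 * (-(Real.cos a * Real.sin b)))) ^ 2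
      + (c 1 - (p1 * Real.cos a + p2 * (-(Real.sin a * Real.sin b)))) ^ 2
      + (c 2 - p2 * Real.cos b) ^ 2 := by
    rw [EuclideanSpace.norm_sq_eq]
    simp [Fin.sum_univ_three, Pd]
  have h5 : inner ℝ (c - Pd a b p1 p2) (Vd a b) =
      (c 0 - (p1 * (-Real.sin a) + p2 * (-(Real.cos a * Real.sin b)))) * (Real.cos a * Real.cos b)
      + (c 1 - (p1 * Real.cos a + p2 * (-(Real.sin a * Real.sin b)))) * (Real.sin a * Real.cos b)
      + (c 2 - p2 * Real.cos b) * Real.sin b := by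
    simp [PiLp.inner_apply, Fin.sum_univ_three, Pd, Vd]
    ring
  rw [h4, h5] at h3
  obtain ⟨A1, hA1⟩ : ∃ A : ℝ, A = -Real.sin a * c 0 + Real.cos a * c 1 := ⟨_, rfl⟩
  obtain ⟨A2, hA2⟩ : ∃ A : ℝ, A = -(Real.cos a * Real.sin b) * c 0
    - Real.sin a * Real.sin b * c 1 + Real.cos b * c 2 := ⟨_, rfl⟩
  obtain ⟨A3, hA3⟩ : ∃ A : ℝ, A = Real.cos a * Real.cos b * c 0
    + Real.sin a * Real.cos b * c 1 + Real.sin b * c 2 := ⟨_, rfl⟩
  have hc0 : c 0 = A1 * (-Real.sin a) + A2 * (-(Real.cos a * Real.sin b))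
      + A3 * (Real.cos a * Real.cos b) := by
    rw [hA1, hA2, hA3]; exact (frame0 _ _ _ _ _ _ _ h1 h2).symm
  have hc1 : c 1 = A1 * Real.cos a + A2 * (-(Real.sin a * Real.sin b))
      + A3 * (Real.sin a * Real.cos b) := by
    rw [hA1, hA2, hA3]; exact (frame1 _ _ _ _ _ _ _ h1 h2).symm
  have hc2 : c 2 = A2 * Real.cos b + A3 * Real.sin b := by
    rw [hA2, hA3]; exact (frame2 (Real.cos a) (Real.sin a) _ _ _ _ _ h2).symm
  have hnorm : ‖c‖ ^ 2 = A1 ^ 2 + A2 ^ 2 + A3 ^ 2 := by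
    rw [EuclideanSpace.norm_sq_eq]
    simp only [Fin.sum_univ_three, Real.norm_eq_abs, sq_abs]
    rw [hc0, hc1, hc2]
    exact nrm _ _ _ _ _ _ _ h1 h2
  have h6 : (A1 - p1) ^ 2 + (A2 - p2) ^ 2 = 1 := by
    have e0 : c 0 - (p1 * (-Real.sin a) + p2 * (-(Real.cos a * Real.sin b)))
        = (A1 - p1) * (-Real.sin a) + (A2 - p2) * (-(Real.cos a * Real.sin b))
          + A3 * (Real.cos a * Real.cos b) := by rw [hc0]; ring
    have e1 : c 1 - (p1 * Real.cos a + p2 * (-(Real.sin a * Real.sin b)))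
        = (A1 - p1) * Real.cos a + (A2 - p2) * (-(Real.sin a * Real.sin b))
          + A3 * (Real.sin a * Real.cos b) := by rw [hc1]; ring
    have e2 : c 2 - p2 * Real.cos b = (A2 - p2) * Real.cos b + A3 * Real.sin b := by
      rw [hc2]; ring
    rw [e0, e1, e2, nrm _ _ _ _ _ _ _ h1 h2, inn _ _ _ _ _ _ _ h1 h2] at h3
    linarith
  clear h3 h4 h5 hc hA1 hA2 hA3
  obtain ⟨r, f, hr, hf, hfa, hfb, hrr⟩ := exists_angle (A1 - p1) (A2 - p2)
  have hr1 : r = 1 := by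
    rw [h6] at hrr
    have : (r - 1) * (r + 1) = 0 := by linarith
    rcases mul_eq_zero.1 this with h | h <;> linarith
  subst hr1
  rw [one_mul] at hfa hfb
  have hA3n : |A3| ≤ ‖c‖ := by
    apply abs_le_of_sq_le_sq _ (norm_nonneg _)
    nlinarith [sq_nonneg A1, sq_nonneg A2]
  have hA1n : |A1| ≤ ‖c‖ := by
    apply abs_le_of_sq_le_sq _ (norm_nonneg _)
    nlinarith [sq_nonneg A3, sq_nonneg A2]
  have hA2n : |A2| ≤ ‖c‖ := by
    apply abs_le_of_sq_le_sq _ (norm_nonneg _)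
    nlinarith [sq_nonneg A3, sq_nonneg A1]
  refine ⟨f, A3, hf, hA3n, ?_, ?_, ?_, ?_, ?_⟩
  · have h7 : |A1 - p1| ≤ 1 := by rw [hfa]; exact Real.abs_cos_le_one f
    rw [abs_le] at *
    constructor <;> linarith [h7.1, h7.2, hA1n.1, hA1n.2]
  · have h7 : |A2 - p2| ≤ 1 := by rw [hfb]; exact Real.abs_sin_le_one f
    rw [abs_le] at *
    constructor <;> linarith [h7.1, h7.2, hA2n.1, hA2n.2]
  · rw [← hfa, ← hfb]; rw [hc0]; ring
  · rw [← hfa, ← hfb]; rw [hc1]; ring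
  · rw [← hfb]; rw [hc2]; ring

theorem finite_lines (c : C4) (hc : c ∉ Bad) :
    {L : AffineSubspace ℝ E3 | Module.finrank ℝ L.direction = 1 ∧
      ∀ i, Metric.infDist (WithLp.toLp 2 (c i) : E3) (L : Set E3) = 1}.Finite := by
  obtain ⟨R, hR⟩ : ∃ R : ℝ, R = Real.pi + 1 + ∑ i, ‖(WithLp.toLp 2 (c i) : E3)‖ := ⟨_, rfl⟩
  have hRi : ∀ i, Real.pi + 1 + ‖(WithLp.toLp 2 (c i) : E3)‖ ≤ R := by
    intro i
    rw [hR]
    have := Finset.single_le_sum (f := fun i => ‖(WithLp.toLp 2 (c i) : E3)‖)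
      (fun i _ => norm_nonneg _) (Finset.mem_univ i)
    simp only at this
    linarith
  have hpi := Real.pi_pos
  have hR0 : 0 ≤ R := by
    have := hRi 0
    have := norm_nonneg (WithLp.toLp 2 (c 0) : E3)
    linarith
  refine ((finite_preimage c hc R).image (fun x : C4 =>
    mkLine (Pd (x 0 0) (x 1 0) (x 2 0) (x 3 0)) (Vd (x 0 0) (x 1 0)))).subset ?_
  rintro L ⟨hL, hLc⟩
  obtain ⟨a, b, p1, p2, ha, hb, rfl⟩ := line_param L hL
  choose f t hf ht hp1 hp2 h0 h1 h2 using fun i => exists_phi a b p1 p2 _ (hLc i)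
  refine ⟨fun i => ![![a, b, p1, p2] i, t i, f i], ⟨?_, ?_⟩, by simp⟩
  · funext i j
    fin_cases j
    · simp [Phi]; simpa using (h0 i).symm
    · simp [Phi]; simpa using (h1 i).symm
    · simp [Phi]; simpa using (h2 i).symm
  · rw [pi_norm_le_iff_of_nonneg hR0]
    intro i
    rw [pi_norm_le_iff_of_nonneg hR0]
    intro j
    have hi := hRi i
    have hn := norm_nonneg (WithLp.toLp 2 (c i) : E3)
    have h3 := hf i
    have h4 := ht i
    have h5 := hp1 i
    have h6 := hp2 i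
    rw [Real.norm_eq_abs]
    fin_cases j
    · fin_cases i
      · simp; linarith
      · simp; linarith
      · simp; simp at h5 hi; linarith
      · simp; simp at h6 hi; linarith
    · simp; linarith
    · simp; linarith

theorem ae_good {ι : Type*} [Fintype ι] :
    ∀ᵐ f : ι → Fin 3 → ℝ, ∀ e : Fin 4 → ι, Function.Injective e → (fun i => f (e i)) ∉ Bad := by
  classical
  rw [Filter.eventually_all]
  intro e
  by_cases he : Function.Injective e
  · simp only [he, forall_const]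
    have hm : MeasurableSet (toMeasurable volume Bad)ᶜ := (measurableSet_toMeasurable _ _).compl
    have h1 : ∀ᵐ y : C4, y ∈ (toMeasurable volume Bad)ᶜ := by
      have h0 : volume (toMeasurable volume Bad) = 0 := by
        rw [measure_toMeasurable, volume_Bad]
      exact MeasureTheory.measure_eq_zero_iff_ae_notMem.1 h0
    have h2 := (ae_comp_linearMap_mem_iff (LinearMap.funLeft ℝ (Fin 3 → ℝ) e)
      (volume : Measure (ι → Fin 3 → ℝ)) (volume : Measure C4)
      (LinearMap.funLeft_surjective_of_injective _ _ _ he) hm).2 h1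
    filter_upwards [h2] with f hf hbad
    apply hf
    exact subset_toMeasurable _ _ hbad
  · simp [he]


theorem finite_tangentLines {ι : Type*} [Fintype ι] (f : ι → Fin 3 → ℝ)
    (hf : ∀ e : Fin 4 → ι, Function.Injective e → (fun i => f (e i)) ∉ Bad) (B : Finset E3)
    (hB : ∀ c ∈ B, ∃ i, c = WithLp.toLp 2 (f i)) :
    (tangentLines B).Finite := by
  classical
  have h1 : (⋃ e : {e : Fin 4 → ι // Function.Injective e},
      {L : AffineSubspace ℝ E3 | Module.finrank ℝ L.direction = 1 ∧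
        ∀ i, Metric.infDist (WithLp.toLp 2 (f (e.1 i)) : E3) (L : Set E3) = 1}).Finite := by
    apply Set.finite_iUnion
    intro e
    exact finite_lines _ (hf e.1 e.2)
  refine h1.subset ?_
  rintro L ⟨hL, F, hFB, hF4, hF, -⟩
  obtain ⟨g⟩ : Nonempty (Fin 4 ≃ F) := by
    rw [← hF4]
    exact ⟨F.equivFin.symm⟩
  choose h hh using fun c : F => hB c.1 (hFB c.2)
  rw [Set.mem_iUnion]
  refine ⟨⟨fun i => h (g i), ?_⟩, hL, ?_⟩
  · intro i j hij
    have h2 : (g i).1 = (g j).1 := by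
      rw [hh (g i), hh (g j)]
      simp only at hij
      rw [hij]
    exact g.injective (Subtype.ext h2)
  · intro i
    rw [← hh (g i)]
    exact hF _ (g i).2

/-! ### Assembly -/

theorem ae_injective {ι : Type*} [Fintype ι] :
    ∀ᵐ f : ι → Fin 3 → ℝ, Function.Injective f := by
  classical
  have h1 : ∀ᵐ f : ι → Fin 3 → ℝ, ∀ x y : ι, x ≠ y → f x ≠ f y := by
    rw [Filter.eventually_all]
    intro x
    rw [Filter.eventually_all]
    intro y
    by_cases hxy : x = y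
    · simp [hxy]
    · simp only [ne_eq, hxy, not_false_eq_true, forall_const]
      have hm : MeasurableSet ({0}ᶜ : Set (Fin 3 → ℝ)) := (measurableSet_singleton 0).compl
      have h1 : ∀ᵐ y : Fin 3 → ℝ, y ∈ ({0}ᶜ : Set (Fin 3 → ℝ)) :=
        MeasureTheory.measure_eq_zero_iff_ae_notMem.1 (measure_singleton _)
      obtain ⟨D, hD⟩ : ∃ D : (ι → Fin 3 → ℝ) →ₗ[ℝ] (Fin 3 → ℝ), ∀ f, D f = f x - f y :=
        ⟨LinearMap.proj (R := ℝ) (φ := fun _ : ι => Fin 3 → ℝ) x
          - LinearMap.proj (R := ℝ) (φ := fun _ : ι => Fin 3 → ℝ) y, fun f => rfl⟩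
      have hs : Function.Surjective D := by
        intro v
        refine ⟨Pi.single x v, ?_⟩
        rw [hD, Pi.single_eq_same, Pi.single_eq_of_ne (Ne.symm hxy), sub_zero]
      have h2 := (ae_comp_linearMap_mem_iff D
        (volume : Measure (ι → Fin 3 → ℝ)) (volume : Measure (Fin 3 → ℝ)) hs hm).2 h1
      filter_upwards [h2] with f hf hxy
      apply hf
      rw [Set.mem_singleton_iff, hD, hxy, sub_self]
  filter_upwards [h1] with f hf x y hxy
  by_contra h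
  exact hf x y h hxy

/-- true centres from scaled centres -/
noncomputable def act (p : ℝ) (x : Ix n k) (q : ℝ × ℝ × ℝ) : Fin 3 → ℝ :=
  match x with
  | .inl (.inl _) => ![p * q.1, -1 + p ^ 2 * q.2.1, q.2.2]
  | .inl (.inr _) => ![p * q.1, 1 + p ^ 2 * q.2.1, q.2.2]
  | .inr (.inl _) => ![p * q.1, 1 + p ^ 2 * q.2.1, q.2.2]
  | .inr (.inr _) => ![q.1, q.2.1, 1 / (100 * p ^ 2) + q.2.2]

/-- scaled centres from true centres -/
noncomputable def scl (p : ℝ) (x : Ix n k) (w : Fin 3 → ℝ) : ℝ × ℝ × ℝ :=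
  match x with
  | .inl (.inl _) => (w 0 / p, (w 1 + 1) / p ^ 2, w 2)
  | .inl (.inr _) => (w 0 / p, (w 1 - 1) / p ^ 2, w 2)
  | .inr (.inl _) => (w 0 / p, (w 1 - 1) / p ^ 2, w 2)
  | .inr (.inr _) => (w 0, w 1, w 2 - 1 / (100 * p ^ 2))

theorem act_scl (p : ℝ) (hp : p ≠ 0) (x : Ix n k) (w : Fin 3 → ℝ) : act p x (scl p x w) = w := by
  rcases x with (j | i) | (i | l)
  all_goals
    funext a
    fin_cases a
    · simp [act, scl]; try field_simp
    · simp [act, scl]; try field_simp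
      try ring
    · simp [act, scl]

theorem scl_act (p : ℝ) (hp : p ≠ 0) (x : Ix n k) (q : ℝ × ℝ × ℝ) : scl p x (act p x q) = q := by
  obtain ⟨q1, q2, q3⟩ := q
  rcases x with (j | i) | (i | l)
  all_goals
    simp only [act, scl, Matrix.cons_val_zero, Matrix.cons_val_one, Matrix.cons_val, Prod.mk.injEq]
    refine ⟨?_, ?_, ?_⟩
    · first | trivial | field_simp
    · first | trivial | (field_simp; done) | (field_simp; ring)
    · first | trivial | ring

theorem continuous_scl (p : ℝ) :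
    Continuous (fun f : Ix n k → Fin 3 → ℝ => fun x => scl p x (f x)) := by
  refine continuous_pi fun x => ?_
  rcases x with (j | i) | (i | l)
  all_goals
    simp only [scl]
    fun_prop

theorem exists_config (n k : ℕ) :
    ∃ p : ℝ, 0 < p ∧ ∃ f : Ix n k → Fin 3 → ℝ, Function.Injective f ∧
      (∀ e : Fin 4 → Ix n k, Function.Injective e → (fun i => f (e i)) ∉ Bad) ∧
      ∀ (i j : Fin n) (l : Fin k), ∃ m : ℝ × ℝ × ℝ × ℝ,
        (∀ x ∈ quad i j l, H x p m (scl p x (f x)) = 0) ∧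
        (∀ x ∉ quad i j l, 0 < H x p m (scl p x (f x))) := by
  have h1 := exists_all_lines n k
  rw [nhds_prod_eq] at h1
  have h2 := h1.curry
  have h3 : ∀ᶠ p in 𝓝[>] (0 : ℝ), 0 < p := self_mem_nhdsWithin
  obtain ⟨p, hp, hpq⟩ := (h3.and (h2.filter_mono nhdsWithin_le_nhds)).exists
  refine ⟨p, hp, ?_⟩
  have h4 : ∀ᶠ f in 𝓝 (fun x : Ix n k => act p x (q0 n k x)),
      ∀ (i j : Fin n) (l : Fin k), ∃ m : ℝ × ℝ × ℝ × ℝ,
        (∀ x ∈ quad i j l, H x p m (scl p x (f x)) = 0) ∧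
        (∀ x ∉ quad i j l, 0 < H x p m (scl p x (f x))) := by
    have h5 : Tendsto (fun f : Ix n k → Fin 3 → ℝ => fun x => scl p x (f x))
        (𝓝 (fun x : Ix n k => act p x (q0 n k x))) (𝓝 (q0 n k)) := by
      have h6 := (continuous_scl (n := n) (k := k) p).tendsto (fun x => act p x (q0 n k x))
      have h7 : (fun x : Ix n k => scl p x (act p x (q0 n k x))) = q0 n k := by
        funext x; exact scl_act p hp.ne' x _
      rw [h7] at h6
      exact h6
    exact h5.eventually hpq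
  have h8 := MeasureTheory.Measure.dense_of_ae
    ((ae_injective (ι := Ix n k)).and (ae_good (ι := Ix n k)))
  obtain ⟨f, hf1, hf2⟩ := h8.inter_nhds_nonempty h4
  exact ⟨f, hf1.1, hf1.2, hf2⟩

theorem coord_sq (x0 s y0 t a b z : ℝ) :
    ‖(!₂[a, b, z] : E3) - !₂[x0, y0, 0]‖ ^ 2 * ‖(!₂[s, t, 1] : E3)‖ ^ 2
      - (inner ℝ ((!₂[a, b, z] : E3) - !₂[x0, y0, 0]) (!₂[s, t, 1] : E3)) ^ 2
      = G x0 s y0 t a b z + ‖(!₂[s, t, 1] : E3)‖ ^ 2 := by
  rw [EuclideanSpace.norm_sq_eq, EuclideanSpace.norm_sq_eq]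
  simp only [PiLp.inner_apply, Fin.sum_univ_three, Real.norm_eq_abs, sq_abs]
  simp [G]
  ring

theorem infDist_G (x0 s y0 t a b z : ℝ) :
    (Metric.infDist (!₂[a, b, z] : E3) (mkLine !₂[x0, y0, 0] !₂[s, t, 1] : Set E3) ^ 2 - 1)
      * ‖(!₂[s, t, 1] : E3)‖ ^ 2 = G x0 s y0 t a b z := by
  have hv : (!₂[s, t, 1] : E3) ≠ 0 := by
    intro h
    have := congrArg (fun w : E3 => w 2) h
    simp at this
  have h1 := infDist_line (!₂[x0, y0, 0] : E3) !₂[s, t, 1] !₂[a, b, z] hv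
  have h2 := coord_sq x0 s y0 t a b z
  linarith

theorem infDist_eq_one (x0 s y0 t a b z : ℝ) (h : G x0 s y0 t a b z = 0) :
    Metric.infDist (!₂[a, b, z] : E3) (mkLine !₂[x0, y0, 0] !₂[s, t, 1] : Set E3) = 1 := by
  have h1 := infDist_G x0 s y0 t a b z
  rw [h] at h1
  have hv : (!₂[s, t, 1] : E3) ≠ 0 := by
    intro h
    have := congrArg (fun w : E3 => w 2) h
    simp at this
  have hv2 : ‖(!₂[s, t, 1] : E3)‖ ^ 2 ≠ 0 := by positivity
  have h3 := (mul_eq_zero.1 h1).resolve_right hv2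
  have h4 := Metric.infDist_nonneg (x := (!₂[a, b, z] : E3))
    (s := (mkLine !₂[x0, y0, 0] !₂[s, t, 1] : Set E3))
  nlinarith

theorem one_lt_infDist (x0 s y0 t a b z : ℝ) (h : 0 < G x0 s y0 t a b z) :
    1 < Metric.infDist (!₂[a, b, z] : E3) (mkLine !₂[x0, y0, 0] !₂[s, t, 1] : Set E3) := by
  have h1 := infDist_G x0 s y0 t a b z
  rw [← h1] at h
  have h3 := pos_of_mul_pos_left h (by positivity)
  have h4 := Metric.infDist_nonneg (x := (!₂[a, b, z] : E3))
    (s := (mkLine !₂[x0, y0, 0] !₂[s, t, 1] : Set E3))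
  nlinarith

/-- the line with scaled parameters `m` -/
noncomputable def tl (p : ℝ) (m : ℝ × ℝ × ℝ × ℝ) : AffineSubspace ℝ E3 :=
  mkLine !₂[p * m.1, p ^ 2 * m.2.2.1, 0] !₂[p ^ 2 * m.2.1, p ^ 2 * m.2.2.2, 1]

theorem finrank_tl (p : ℝ) (m : ℝ × ℝ × ℝ × ℝ) : Module.finrank ℝ (tl p m).direction = 1 := by
  unfold tl mkLine
  rw [AffineSubspace.direction_mk']
  apply finrank_span_singleton
  intro h
  have := congrArg (fun w : E3 => w 2) h
  simp at this

theorem toLp_eq (w : Fin 3 → ℝ) : (WithLp.toLp 2 w : E3) = !₂[w 0, w 1, w 2] := by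
  ext i; fin_cases i <;> simp

theorem tl_G (p : ℝ) (hp : 0 < p) (m : ℝ × ℝ × ℝ × ℝ) (x : Ix n k) (w : Fin 3 → ℝ) :
    (H x p m (scl p x w) = 0 → Metric.infDist (WithLp.toLp 2 w : E3) (tl p m : Set E3) = 1) ∧
    (0 < H x p m (scl p x w) → 1 < Metric.infDist (WithLp.toLp 2 w : E3) (tl p m : Set E3)) := by
  have hw := act_scl p hp.ne' x w
  obtain ⟨q, hq⟩ : ∃ q, q = scl p x w := ⟨_, rfl⟩
  rw [← hq] at hw ⊢
  rw [← hw]
  rw [toLp_eq]
  have hp2 : 0 < p ^ 2 := by positivity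
  unfold tl
  rcases x with (j | i) | (i | l)
  · simp only [act, H, Matrix.cons_val_zero, Matrix.cons_val_one, Matrix.cons_val]
    constructor
    · intro h
      apply infDist_eq_one
      rw [G_low, h, mul_zero]
    · intro h
      apply one_lt_infDist
      rw [G_low]; positivity
  · simp only [act, H, Matrix.cons_val_zero, Matrix.cons_val_one, Matrix.cons_val]
    constructor
    · intro h
      apply infDist_eq_one
      rw [G_up, h, mul_zero]
    · intro h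
      apply one_lt_infDist
      rw [G_up]; positivity
  · simp only [act, H, Matrix.cons_val_zero, Matrix.cons_val_one, Matrix.cons_val]
    constructor
    · intro h
      apply infDist_eq_one
      rw [G_up, h, mul_zero]
    · intro h
      apply one_lt_infDist
      rw [G_up]; positivity
  · simp only [act, H, Matrix.cons_val_zero, Matrix.cons_val_one, Matrix.cons_val]
    constructor
    · intro h
      apply infDist_eq_one
      rw [G_E p hp.ne', h]
    · intro h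
      apply one_lt_infDist
      rw [G_E p hp.ne']; exact h

theorem quad_card (i j : Fin n) (l : Fin k) : (quad i j l).card = 4 := by
  unfold quad
  simp

theorem quad_inj {i j i' j' : Fin n} {l l' : Fin k} (h : quad i j l = quad i' j' l') :
    i = i' ∧ j = j' ∧ l = l' := by
  refine ⟨?_, ?_, ?_⟩
  · have : (.inl (.inr i) : Ix n k) ∈ quad i' j' l' := by rw [← h]; simp [quad]
    simpa [quad] using this
  · have : (.inl (.inl j) : Ix n k) ∈ quad i' j' l' := by rw [← h]; simp [quad]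
    simpa [quad] using this
  · have : (.inr (.inr l) : Ix n k) ∈ quad i' j' l' := by rw [← h]; simp [quad]
    simpa [quad] using this

theorem exists_family (n k : ℕ) :
    ∃ B : Finset E3, B.card = 3 * n + k ∧ (tangentLines B).Finite ∧
      n * n * k ≤ (tangentLines B).ncard := by
  classical
  obtain ⟨p, hp, f, hf, hgood, hlines⟩ := exists_config n k
  have hinj : Function.Injective (fun x : Ix n k => (WithLp.toLp 2 (f x) : E3)) := by
    intro x y hxy
    apply hf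
    exact (WithLp.toLp_injective 2) hxy
  obtain ⟨B, hB⟩ : ∃ B : Finset E3, B = Finset.univ.image (fun x : Ix n k =>
      (WithLp.toLp 2 (f x) : E3)) := ⟨_, rfl⟩
  have hfin : (tangentLines B).Finite := by
    apply finite_tangentLines f hgood
    intro c hc
    rw [hB, Finset.mem_image] at hc
    obtain ⟨x, -, hx⟩ := hc
    exact ⟨x, hx.symm⟩
  refine ⟨B, ?_, hfin, ?_⟩
  · rw [hB, Finset.card_image_of_injective _ hinj]
    simp; ring
  · choose m hm0 hm1 using hlines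
    have hdist : ∀ (i j : Fin n) (l : Fin k) (x : Ix n k),
        Metric.infDist (WithLp.toLp 2 (f x) : E3) (tl p (m i j l) : Set E3) = 1
          ↔ x ∈ quad i j l := by
      intro i j l x
      constructor
      · intro h
        by_contra hx
        have := (tl_G p hp (m i j l) x (f x)).2 (hm1 i j l x hx)
        linarith
      · intro hx
        exact (tl_G p hp (m i j l) x (f x)).1 (hm0 i j l x hx)
    let g : Fin n × Fin n × Fin k → AffineSubspace ℝ E3 := fun a => tl p (m a.1 a.2.1 a.2.2)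
    have hg : Function.Injective g := by
      rintro ⟨i, j, l⟩ ⟨i', j', l'⟩ h
      have h1 : quad i j l = quad i' j' l' := by
        ext x
        rw [← hdist, ← hdist]
        simp only [g] at h
        rw [h]
      obtain ⟨rfl, rfl, rfl⟩ := quad_inj h1
      rfl
    have hsub : Set.range g ⊆ tangentLines B := by
      rintro _ ⟨⟨i, j, l⟩, rfl⟩
      refine ⟨finrank_tl _ _, (quad i j l).image (fun x : Ix n k => (WithLp.toLp 2 (f x) : E3)),
        ?_, ?_, ?_, ?_⟩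
      · rw [hB]; exact Finset.image_subset_image (Finset.subset_univ _)
      · rw [Finset.card_image_of_injective _ hinj, quad_card]
      · intro c hc
        rw [Finset.mem_image] at hc
        obtain ⟨x, hx, rfl⟩ := hc
        exact (hdist i j l x).2 hx
      · intro c hc hc2
        rw [hB, Finset.mem_image] at hc
        obtain ⟨x, -, rfl⟩ := hc
        have hx : x ∉ quad i j l := by
          intro hx
          exact hc2 (Finset.mem_image_of_mem _ hx)
        exact (tl_G p hp (m i j l) x (f x)).2 (hm1 i j l x hx)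
    have h1 : (Set.range g).ncard = n * n * k := by
      rw [Set.ncard_eq_toFinset_card', Set.toFinset_range, Finset.card_image_of_injective _ hg]
      simp [mul_assoc]
    rw [← h1]
    exact Set.ncard_le_ncard hsub hfin

theorem exists_cubic (n : ℕ) :
    ∃ B : Finset E3, B.card = n ∧ (tangentLines B).Finite ∧
      (n / 4) ^ 3 ≤ (tangentLines B).ncard := by
  obtain ⟨B, hB, hfin, hcard⟩ := exists_family (n / 4) (n - 3 * (n / 4))
  refine ⟨B, ?_, hfin, le_trans ?_ hcard⟩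
  · rw [hB]; omega
  · have h : n / 4 ≤ n - 3 * (n / 4) := by omega
    calc (n / 4) ^ 3 = n / 4 * (n / 4) * (n / 4) := by ring
      _ ≤ n / 4 * (n / 4) * (n - 3 * (n / 4)) := Nat.mul_le_mul_left _ h

/-- **Main theorem.** `T n ≥ (n / 4) ^ 3` (floor division), so `T n = Ω(n ^ 3)`. -/
theorem result :
    (∀ n : ℕ, (((n / 4) ^ 3 : ℕ) : ℕ∞) ≤ T n) ∧
    ∀ n : ℕ, 4 ≤ n → ∃ B : Finset E3, B.card = n ∧ (tangentLines B).Finite ∧
      (n : ℝ) ^ 3 / 512 ≤ ((tangentLines B).ncard : ℝ) := by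
  refine ⟨fun n => ?_, fun n hn => ?_⟩
  · obtain ⟨B, hB, hfin, hcard⟩ := exists_cubic n
    calc (((n / 4) ^ 3 : ℕ) : ℕ∞) ≤ ((tangentLines B).ncard : ℕ∞) := by exact_mod_cast hcard
      _ = (tangentLines B).encard := hfin.cast_ncard_eq
      _ ≤ T n := le_iSup₂_of_le (f := fun (B : Finset E3)
          (_ : B.card = n ∧ (tangentLines B).Finite) => (tangentLines B).encard)
          B ⟨hB, hfin⟩ le_rfl
  · obtain ⟨B, hB, hfin, hcard⟩ := exists_cubic n
    refine ⟨B, hB, hfin, ?_⟩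
    have h1 : (n : ℝ) / 8 ≤ ((n / 4 : ℕ) : ℝ) := by
      have h2 : n ≤ 8 * (n / 4) := by omega
      have h3 : (n : ℝ) ≤ 8 * ((n / 4 : ℕ) : ℝ) := by exact_mod_cast h2
      linarith
    have h4 : ((n : ℝ) / 8) ^ 3 ≤ ((n / 4 : ℕ) : ℝ) ^ 3 := by
      apply pow_le_pow_left₀ (by positivity) h1
    have h5 : (((n / 4) ^ 3 : ℕ) : ℝ) ≤ ((tangentLines B).ncard : ℝ) := by exact_mod_cast hcard
    push_cast at h5 h4
    calc (n : ℝ) ^ 3 / 512 = ((n : ℝ) / 8) ^ 3 := by ring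
      _ ≤ _ := h4
      _ ≤ _ := h5

end Pool.Agent.Results.MP_11b705_co.CubicTangents
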